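import Pool.Agent.helper17.EXC.Spec

/-!
# Project EXC, row CL3: a singular plane
-/

set_option autoImplicit false

open Finset

namespace Pool.Agent.EXC

section
variable {n : ℕ} {F : Type} [Field F]

/-- the block -/
def CL3_B (v : Fin 3 → F) : Matrix (Fin 3) (Fin 3) F := Matrix.of fun i j => if j = 0 then v i else 0

/-- the matrix `∑ v_i E_i3` -/
def CL3_M (v : Fin 3 → F) : Matrix (Fin 6) (Fin 6) F :=
  Matrix.reindex (finSumFinEquiv (m := 3) (n := 3)) (finSumFinEquiv (m := 3) (n := 3)) (Matrix.fromBlocks 0 (CL3_B v) 0 0)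

/-- the matrix `diag(A, 1)` -/
def CL3_G (A : Matrix (Fin 3) (Fin 3) F) : Matrix (Fin 6) (Fin 6) F :=
  Matrix.reindex (finSumFinEquiv (m := 3) (n := 3)) (finSumFinEquiv (m := 3) (n := 3)) (Matrix.fromBlocks A 0 0 1)

theorem CL3_M_apply (v : Fin 3 → F) (a b : Fin 6) :
    CL3_M v a b = if b = 3 then (if h : (a : ℕ) < 3 then v ⟨a, h⟩ else 0) else 0 := by
  fin_cases a <;> fin_cases b <;> rfl

theorem CL3_mul (A : Matrix (Fin 3) (Fin 3) F) (v : Fin 3 → F) :
    CL3_G A * CL3_M v = CL3_M (A.mulVec v) * CL3_G A := by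
  have h : A * CL3_B v = CL3_B (A.mulVec v) := by
    ext i j
    by_cases hj : j = 0
    · simp [CL3_B, Matrix.mul_apply, Matrix.mulVec, dotProduct, hj]
    · simp [CL3_B, Matrix.mul_apply, hj]
  unfold CL3_G CL3_M
  simp only [Matrix.reindex_apply, Matrix.submatrix_mul_equiv, Matrix.fromBlocks_multiply, h]
  simp

theorem CL3_det (A : Matrix (Fin 3) (Fin 3) F) : (CL3_G A).det = A.det := by
  unfold CL3_G
  rw [Matrix.det_reindex_self, Matrix.det_fromBlocks_zero₂₁, Matrix.det_one, mul_one]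

theorem CL3_tr (v : Fin 3 → F) : (CL3_M v).trace = 0 := by
  simp [Matrix.trace, CL3_M_apply]

theorem CL3_add (v w : Fin 3 → F) : CL3_M (v + w) = CL3_M v + CL3_M w := by
  ext a b
  simp only [CL3_M_apply, Matrix.add_apply]
  split_ifs <;> simp

theorem CL3_smul (c : F) (v : Fin 3 → F) : CL3_M (c • v) = c • CL3_M v := by
  ext a b
  simp only [CL3_M_apply, Matrix.smul_apply, Pi.smul_apply]
  split_ifs <;> simp

/-- independent vectors are the first two columns of a matrix of determinant one -/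
theorem CL3_ext (v w : Fin 3 → F) (h : LinearIndependent F ![v, w]) : ∃ A : Matrix (Fin 3) (Fin 3) F, A.det = 1 ∧
    A.mulVec (Pi.single 0 1) = v ∧ A.mulVec (Pi.single 1 1) = w := by
  have hc : crossProduct v w ≠ 0 := crossProduct_ne_zero_iff_linearIndependent.2 h
  obtain ⟨i, hi⟩ : ∃ i, crossProduct v w i ≠ 0 := by
    by_contra hcon
    push Not at hcon
    exact hc (funext hcon)
  refine ⟨(Matrix.of ![v, w, Pi.single i (crossProduct v w i)⁻¹]).transpose, ?_, ?_, ?_⟩
  · rw [Matrix.det_transpose]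
    have h1 := triple_product_eq_det v w (Pi.single i (crossProduct v w i)⁻¹)
    have h2 := triple_product_permutation (Pi.single i (crossProduct v w i)⁻¹) v w
    have h3 : (Pi.single i (crossProduct v w i)⁻¹ : Fin 3 → F) ⬝ᵥ (crossProduct v w) = 1 := by
      rw [single_dotProduct, inv_mul_cancel₀ hi]
    rw [h2] at h3
    exact h1.symm.trans h3
  · ext j
    simp
  · ext j
    simp

theorem CL3_comp (v : Fin 3 → F) (hv : v ≠ 0) : ∃ w, LinearIndependent F ![v, w] := by
  obtain ⟨i, hi⟩ : ∃ i, v i ≠ 0 := by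
    by_contra hcon
    push Not at hcon
    exact hv (funext hcon)
  refine ⟨Pi.single (i + 1) 1, LinearIndependent.pair_iff.2 fun s t h => ?_⟩
  have h1 := congrFun h i
  have hne : i ≠ i + 1 := by fin_cases i <;> decide
  rw [Pi.add_apply, Pi.smul_apply, Pi.smul_apply, Pi.single_eq_of_ne hne, smul_zero, add_zero, Pi.zero_apply, smul_eq_mul] at h1
  have hs : s = 0 := (mul_eq_zero.1 h1).resolve_right hi
  have h2 := congrFun h (i + 1)
  rw [hs, zero_smul, zero_add, Pi.smul_apply, Pi.single_eq_same, Pi.zero_apply, smul_eq_mul, mul_one] at h2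
  exact ⟨hs, h2⟩

end

section
variable {n : ℕ} (C : Matrix (Fin n) (Fin n) ℤ) [IsC C] {F : Type} [Field F]

/-- the plane -/
noncomputable def CL3_io (δ : Fin 5 → Fin n) : (Fin 3 → F) →ₗ[F] Lm C F where
  toFun v := io C δ (CL3_M v)
  map_add' v w := by rw [CL3_add, io_add]
  map_smul' c v := by rw [CL3_smul, io_smul, RingHom.id_apply]

omit [IsC C] in
theorem CL3_io_apply (δ : Fin 5 → Fin n) (v : Fin 3 → F) : CL3_io C δ v =
    (-v 0) • E C (ro δ 0 3) + ((-v 1) • E C (ro δ 1 3) + (-v 2) • E C (ro δ 2 3)) := by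
  show io C δ (CL3_M v) = _
  have hd : ∀ a : Fin 6, CL3_M v a a = 0 := by
    intro a
    rw [CL3_M_apply]
    fin_cases a <;> simp
  have h1 : ∀ k : Fin 5, (∑ a : Fin 6, if (a : ℕ) ≤ k then CL3_M v a a else 0) = 0 := by
    intro k
    refine Finset.sum_eq_zero fun a _ => ?_
    rw [hd a, ite_self]
  have h2 : ∀ a b : Fin 6, (if a = b then 0 else ((et a b : F) * CL3_M v a b) • E C (ro δ a b) : Lm C F) =
      if b = 3 then (if h : (a : ℕ) < 3 then (-(v ⟨a, h⟩)) • E C (ro δ a 3) else 0) else 0 := by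
    intro a b
    rw [CL3_M_apply]
    by_cases hb : b = 3
    · subst hb
      by_cases ha : (a : ℕ) < 3
      · have hne : a ≠ 3 := fun h => by rw [h] at ha; exact absurd ha (by decide)
        have hlt : a < 3 := ha
        rw [if_neg hne, if_pos rfl, if_pos rfl, dif_pos ha, dif_pos ha, et, if_pos hlt]
        simp
      · rw [if_pos rfl, if_pos rfl, dif_neg ha, dif_neg ha, mul_zero, zero_smul, ite_self]
    · rw [if_neg hb, if_neg hb, mul_zero, zero_smul, ite_self]
  rw [io]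
  simp only [h1, h2, zero_smul, Finset.sum_const_zero, zero_add]
  rw [Fin.sum_univ_six]
  simp only [Finset.sum_ite_eq', Finset.mem_univ, if_true]
  simp
  abel

/-- the identity of the plane -/
def CL3_P (a b : Lm C F) : Prop := (∀ u, br C a (br C b u) = fm C a u • b + fm C b u • a) ∧ br C a b = 0 ∧ fm C a b = 0

theorem CL3_P_add_left (a a' b : Lm C F) (h : CL3_P C a b) (h' : CL3_P C a' b) : CL3_P C (a + a') b := by
  refine ⟨fun u => ?_, ?_, ?_⟩
  · rw [br_add_left, h.1, h'.1, fm_add_left, add_smul, smul_add]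
    abel
  · rw [br_add_left, h.2.1, h'.2.1, add_zero]
  · rw [fm_add_left, h.2.2, h'.2.2, add_zero]

theorem CL3_P_add_right (a b b' : Lm C F) (h : CL3_P C a b) (h' : CL3_P C a b') : CL3_P C a (b + b') := by
  refine ⟨fun u => ?_, ?_, ?_⟩
  · rw [br_add_left, br_add_right, h.1, h'.1, fm_add_left, add_smul, smul_add]
    abel
  · rw [br_add_right, h.2.1, h'.2.1, add_zero]
  · rw [fm_add_right, h.2.2, h'.2.2, add_zero]

theorem CL3_P_smul_left (c : F) (a b : Lm C F) (h : CL3_P C a b) : CL3_P C (c • a) b := by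
  refine ⟨fun u => ?_, ?_, ?_⟩
  · rw [br_smul_left, h.1, fm_smul_left, smul_add, smul_smul, smul_smul, smul_smul, mul_comm c (fm C b u)]
  · rw [br_smul_left, h.2.1, smul_zero]
  · rw [fm_smul_left, h.2.2, mul_zero]

theorem CL3_P_smul_right (c : F) (a b : Lm C F) (h : CL3_P C a b) : CL3_P C a (c • b) := by
  refine ⟨fun u => ?_, ?_, ?_⟩
  · rw [br_smul_left, br_smul_right, h.1, fm_smul_left, smul_add, smul_smul, smul_smul, smul_smul, mul_comm c (fm C a u)]
  · rw [br_smul_right, h.2.1, smul_zero]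
  · rw [fm_smul_right, h.2.2, mul_zero]

theorem CL3_ip_rf (i : Fin n) (v w : Fin n → ℤ) : ip C (rf C i v) (rf C i w) = ip C v w := by
  unfold rf
  rw [ip_sub_left, ip_sub_right, ip_sub_right, ip_smul_left, ip_smul_left, ip_smul_right, ip_smul_right, ip_sr_self,
    ip_comm C (sr i) w]
  ring

theorem CL3_WP (p q : (Fin n → ℤ) × (Fin n → ℤ)) (h : WP C p q) : ip C q.1 q.2 = ip C p.1 p.2 := by
  induction h with
  | refl => rfl
  | tail _ hs ih =>
    obtain ⟨i, rfl⟩ := hs
    rw [CL3_ip_rf]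
    exact ih

end

theorem CL3 (hRHO : RHO_stmt) (hEXF : EXF_stmt) (hACT : ACT_stmt) (hCOL : COL_stmt) (hXAU : XAU_stmt) (hNBR : NBR_stmt) (hWPG : WPG_stmt) (hLIF : LIF_stmt) : CL3_stmt := by
  intro n C _ F _ j0 θ δ hE
  obtain ⟨r1, -, -, -, r5⟩ := hRHO n C j0 θ δ hE
  obtain ⟨nb1, nb2⟩ := hNBR n C j0 θ δ hE
  obtain ⟨-, ex1, ex2, -⟩ := hEXF n C F nb1
  -- the roots
  have hip : ∀ i j : Fin 3, ip C (ro δ (Fin.castLE (by norm_num) i) 3) (ro δ (Fin.castLE (by norm_num) j) 3) = if i = j then 2 else 1 := by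
    intro i j
    rw [r1]
    fin_cases i <;> fin_cases j <;> decide
  set R : Fin 3 → (Fin n → ℤ) := fun i => ro δ (Fin.castLE (by norm_num) i) 3 with hR
  have hRR : ∀ i, ip C (R i) (R i) = 2 := fun i => by rw [hR]; simp only; rw [hip, if_pos rfl]
  have hR1 : ∀ i j, i ≠ j → ip C (R i) (R j) = 1 := fun i j hij => by rw [hR]; simp only; rw [hip, if_neg hij]
  have hR0 : ∀ i j, 1 ≤ ip C (R i) (R j) := by
    intro i j
    by_cases hij : i = j
    · rw [hij, hRR]; norm_num
    · rw [hR1 i j hij]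
  have hRi : ∀ i j, R i = R j → i = j := by
    intro i j h
    by_contra hij
    have h1 := hR1 i j hij
    rw [h, hRR] at h1
    norm_num at h1
  have hio : ∀ v : Fin 3 → F, CL3_io C δ v = (-v 0) • E C (R 0) + ((-v 1) • E C (R 1) + (-v 2) • E C (R 2)) := CL3_io_apply C δ
  -- the identities
  have hP : ∀ i j, CL3_P C (E C (R i) : Lm C F) (E C (R j)) := by
    intro i j
    have hneg : R j ≠ -R i := by
      intro h
      have h1 := hR0 i j
      rw [h, ip_neg_right, hRR] at h1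
      norm_num at h1
    refine ⟨?_, ?_, ?_⟩
    · by_cases hij : i = j
      · subst hij
        intro u
        rw [((ex2 _ (ex1 _ (hRR i))).1).sq u, two_mul, add_smul]
      · intro u
        rw [((hCOL n C F (R i) (R j) (hRR i) (hRR j)).1 (hR1 i j hij)).2 u, add_comm]
    · rw [br_E_E C (hRR i) (hRR j), if_neg hneg, E_eq_zero, smul_zero, sub_zero]
      rw [ip_add_left, ip_add_right, ip_add_right, ip_comm C (R j) (R i), hRR, hRR]
      have := hR0 i j
      omega
    · rw [fm_E_E C (hRR i) (hRR j), if_neg hneg]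
  have hPio : ∀ v w : Fin 3 → F, CL3_P C (CL3_io C δ v) (CL3_io C δ w) := by
    intro v w
    have key : ∀ (i : Fin 3), CL3_P C (E C (R i) : Lm C F) (CL3_io C δ w) := by
      intro i
      rw [hio w]
      exact CL3_P_add_right C _ _ _ (CL3_P_smul_right C _ _ _ (hP i 0))
        (CL3_P_add_right C _ _ _ (CL3_P_smul_right C _ _ _ (hP i 1)) (CL3_P_smul_right C _ _ _ (hP i 2)))
    rw [hio v]
    exact CL3_P_add_left C _ _ _ (CL3_P_smul_left C _ _ _ (key 0))
      (CL3_P_add_left C _ _ _ (CL3_P_smul_left C _ _ _ (key 1)) (CL3_P_smul_left C _ _ _ (key 2)))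
  -- the values at the first two basis vectors
  have he0 : CL3_io C δ (Pi.single 0 1 : Fin 3 → F) = (-1 : F) • E C (R 0) := by
    rw [hio]; simp
  have he1 : CL3_io C δ (Pi.single 1 1 : Fin 3 → F) = (-1 : F) • E C (R 1) := by
    rw [hio]; simp
  -- the lifts
  have hlift : ∀ v w : Fin 3 → F, LinearIndependent F ![v, w] → ∃ h ∈ GE C F, h ((-1 : F) • E C (R 0)) = CL3_io C δ v ∧
      h ((-1 : F) • E C (R 1)) = CL3_io C δ w := by
    intro v w hvw
    obtain ⟨A, hA, hA0, hA1⟩ := CL3_ext v w hvw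
    obtain ⟨h, hh, hRm⟩ := hLIF n C F j0 θ δ hE ⟨CL3_G A, by rw [CL3_det, hA]⟩
    set m : Matrix.SpecialLinearGroup (Fin 6) F := ⟨CL3_G A, by rw [CL3_det, hA]⟩ with hm
    have hinv : (m : Matrix (Fin 6) (Fin 6) F) * ((m⁻¹ : Matrix.SpecialLinearGroup (Fin 6) F) : Matrix (Fin 6) (Fin 6) F) = 1 := by
      rw [← Matrix.SpecialLinearGroup.coe_mul, mul_inv_cancel, Matrix.SpecialLinearGroup.coe_one]
    have hact : ∀ x : Fin 3 → F, h (CL3_io C δ x) = CL3_io C δ (A.mulVec x) := by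
      intro x
      have h1 := hRm (CL3_M x) (CL3_tr x)
      have h2 : (m : Matrix (Fin 6) (Fin 6) F) * CL3_M x * ((m⁻¹ : Matrix.SpecialLinearGroup (Fin 6) F) : Matrix (Fin 6) (Fin 6) F) =
          CL3_M (A.mulVec x) := by
        have h3 : (m : Matrix (Fin 6) (Fin 6) F) * CL3_M x = CL3_M (A.mulVec x) * m := CL3_mul A x
        rw [h3, Matrix.mul_assoc, hinv, Matrix.mul_one]
      rw [h2] at h1
      exact h1
    refine ⟨h, hh, ?_, ?_⟩
    · rw [← he0, hact, hA0]
    · rw [← he1, hact, hA1]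
  have hex : ∀ v : Fin 3 → F, v ≠ 0 → Ex C (CL3_io C δ v) := by
    intro v hv
    obtain ⟨w, hw⟩ := CL3_comp v hv
    obtain ⟨h, hh, h0, -⟩ := hlift v w hw
    rw [← h0]
    have h1 : Ex C ((-1 : F) • E C (R 0) : Lm C F) := (ex2 _ (ex1 _ (hRR 0))).2.2.2.1 (-1) (neg_ne_zero.2 one_ne_zero)
    exact (ex2 _ h1).2.2.1 h hh
  refine ⟨CL3_io C δ, ?_, hex, ?_, ?_⟩
  · rw [injective_iff_map_eq_zero]
    intro v hv
    by_contra hne
    exact (ex2 _ (hex v hne)).2.1 hv
  · intro v w hvw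
    obtain ⟨h, hh, h0, h1⟩ := hlift v w hvw
    obtain ⟨β', hβ', hW⟩ := nb2 (R 0) θ (R 1) (hRR 0) hE.th2 (hRR 1)
    obtain ⟨g, hg, s, s', hs, hs', g1, g2⟩ := hWPG n C F nb1 (R 0) (R 1) θ β' (hRR 0) (hRR 1) hW
    have hsF : ∀ s : ℤ, (s = 1 ∨ s = -1) → (-(s : F)) ≠ 0 := by
      rintro s (rfl | rfl) <;> simp
    refine ⟨g * h⁻¹, mul_mem hg (inv_mem hh), β', hβ', ?_, -(s : F), -(s' : F), hsF s hs, hsF s' hs', ?_, ?_⟩
    · have h2 := CL3_WP C _ _ hW
      simp only at h2
      rw [h2, hR1 0 1 (by decide)]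
    · rw [← h0]
      show g (h⁻¹ (h _)) = _
      have : h⁻¹ (h ((-1 : F) • E C (R 0) : Lm C F)) = (-1 : F) • E C (R 0) := h.symm_apply_apply _
      rw [this, map_smul, g1, smul_smul, neg_one_mul]
    · rw [← h1]
      show g (h⁻¹ (h _)) = _
      have : h⁻¹ (h ((-1 : F) • E C (R 1) : Lm C F)) = (-1 : F) • E C (R 1) := h.symm_apply_apply _
      rw [this, map_smul, g2, smul_smul, neg_one_mul]
  · intro v w u
    have h1 := hPio v w
    have h3 := (hPio w v).2.1
    have hinv : fm C (CL3_io C δ v) (br C (CL3_io C δ w) u) = 0 := by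
      by_cases hw : w = 0
      · rw [hw, map_zero, br_zero_left, fm_zero_right]
      · have h2 := ((ex2 _ (hex w hw)).1).inv (CL3_io C δ v) u
        rw [h3, fm_zero_left] at h2
        exact neg_eq_zero.1 h2.symm
    rw [map_add]
    unfold xe
    simp only [one_smul, one_pow, one_mul, br_add_right, br_smul_right, fm_add_right, fm_smul_right, br_add_left, fm_add_left,
      h1.1, h1.2.1, h1.2.2, hinv, smul_zero, mul_zero, add_zero, add_smul, smul_add]
    abel

end Pool.Agent.EXC
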